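import Mathlib

set_option autoImplicit false

/-!
# A counterexample to Björner's torsion-freeness conjecture for orbit arrangements

For `λ = (5,4,3,2,2,2,1)`, a partition of `19`, the reduced homology group `H̃_4(Π_λ; ℤ)` of the
(order complex of the proper part of the) intersection lattice `Π_λ` of the orbit arrangement `A_λ`
has an element of order two.

Outline of the proof. Let `K` be the simplicial complex on the vertices `1,…,18` whose facets are
the sets of proper partial sums of the rearrangements of `λ`. Sending a set partition to the size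
of its block containing the first element is a simplicial map from the order complex of the proper
part of `Π_λ` to `K`; sending a face `F` of `K` to the partition of `{0,…,18}` into the intervals
cut out by `F` is a simplicial map from the barycentric subdivision of `K` to that order complex,
and the composition is the `first vertex map` from the subdivision of `K` to `K`, so `K` is a
retract on the level of homology. The integer chain `W` of 5-simplices of `K` (140 terms) has
boundary `2 Z`, and a mod 2 cocycle (the list `phiTable`) takes the value `1` on `Z`.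
-/

namespace Pool.Agent.Results.MP_5a3b5e_co.TorsionCounterexample

/-! ## Order complexes and reduced simplicial homology -/

section OrderComplex

variable (P : Type*) [PartialOrder P]

/-- The simplices with `m` vertices of the order complex of the poset `P`: the strictly increasing
lists `x₁ < x₂ < ⋯ < x_m` of elements of `P`. (For `m = 0` this is the empty simplex.) -/
def Simplex (m : ℕ) : Type _ :=
  {l : List P // l.length = m ∧ l.Pairwise (· < ·)}

variable {P}

/-- The face of a simplex obtained by deleting its `i`-th vertex. -/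
def Simplex.face {m : ℕ} (s : Simplex P (m + 1)) (i : Fin (m + 1)) : Simplex P m :=
  ⟨s.1.eraseIdx i, by
    have h := s.2.1
    have hi := i.2
    rw [List.length_eraseIdx_of_lt (by omega)]
    omega, s.2.2.sublist (List.eraseIdx_sublist _ _)⟩

variable (P)

/-- The augmented simplicial chain groups with integer coefficients: the free abelian group on the
simplices with `m` vertices (i.e. the simplices of dimension `m - 1`). -/
abbrev Chains (m : ℕ) : Type _ := Simplex P m →₀ ℤ

variable {P} in
/-- The alternating sum of the faces of a simplex, `∑ᵢ (-1)ⁱ [x₀,…,x̂ᵢ,…,x_m]`. -/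
noncomputable def faceSum {m : ℕ} (s : Simplex P (m + 1)) : Chains P m :=
  ∑ i : Fin (m + 1), Finsupp.single (s.face i) ((-1 : ℤ) ^ (i : ℕ))

/-- The simplicial boundary `∂[x₀,…,x_m] = ∑ᵢ (-1)ⁱ [x₀,…,x̂ᵢ,…,x_m]`, extended linearly. -/
noncomputable def boundary (m : ℕ) : Chains P (m + 1) →ₗ[ℤ] Chains P m :=
  Finsupp.linearCombination ℤ faceSum

/-- The group of reduced `k`-cycles (chains on simplices with `k + 1` vertices). -/
noncomputable def Cycles (k : ℕ) : Submodule ℤ (Chains P (k + 1)) :=
  LinearMap.ker (boundary P k)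

/-- The `k`-boundaries, as a subgroup of the group of `k`-cycles. -/
noncomputable def Boundaries (k : ℕ) : Submodule ℤ (Cycles P k) :=
  (LinearMap.range (boundary P (k + 1))).comap (Cycles P k).subtype

/-- The reduced simplicial homology `H̃_k` (integer coefficients) of the order complex of `P`:
`k`-cycles modulo `k`-boundaries. -/
def ReducedHomology (k : ℕ) : Type _ := Cycles P k ⧸ Boundaries P k

noncomputable instance (k : ℕ) : AddCommGroup (ReducedHomology P k) :=
  Submodule.Quotient.addCommGroup _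

end OrderComplex

/-! ## Set partitions, shapes, and the lattice `Π_λ` -/

/-- The set partition `r` of `[n]` (given as an equivalence relation) has shape `lam`: its blocks
can be labelled (by `f`, onto `Fin l`) so that the multiset of block sizes is `lam`. -/
def HasShape {n : ℕ} (lam : Multiset ℕ) (r : Setoid (Fin n)) : Prop :=
  ∃ (l : ℕ) (f : Fin n → Fin l), Function.Surjective f ∧ (∀ i j, r i j ↔ f i = f j) ∧
    (Finset.univ.val.map fun k : Fin l => (Finset.univ.filter fun i => f i = k).card) = lam

/-- `Π_λ`: all joins (in the lattice of set partitions of `[n]` ordered by refinement, finer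
partitions lower) of set partitions of shape `λ`; the empty join is the partition `⊥` into
singletons. -/
def orbitLattice (n : ℕ) (lam : Multiset ℕ) : Set (Setoid (Fin n)) :=
  {r | ∃ S : Set (Setoid (Fin n)), (∀ s ∈ S, HasShape lam s) ∧ r = sSup S}

/-- The proper part of `Π_λ`. -/
def ProperPart (n : ℕ) (lam : Multiset ℕ) : Set (Setoid (Fin n)) :=
  {r | r ∈ orbitLattice n lam ∧ r ≠ ⊥ ∧ r ≠ ⊤}

/-- The partition `λ = (5,4,3,2,2,2,1)` of `19`. -/
abbrev lam0 : Multiset ℕ := {5, 4, 3, 2, 2, 2, 1}

/-! ## Chains of lists -/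

section ListChains

variable {α β : Type*}

/-- The boundary of a list, defined recursively. -/
noncomputable def dl : List α → (List α →₀ ℤ)
  | [] => 0
  | (x :: l) => Finsupp.single l 1 - Finsupp.lmapDomain ℤ ℤ (List.cons x) (dl l)

/-- The cone operator. -/
noncomputable def consL (x : α) : (List α →₀ ℤ) →ₗ[ℤ] (List α →₀ ℤ) :=
  Finsupp.lmapDomain ℤ ℤ (List.cons x)

/-- The boundary operator on chains of lists. -/
noncomputable def D : (List α →₀ ℤ) →ₗ[ℤ] (List α →₀ ℤ) :=
  Finsupp.linearCombination ℤ dl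

@[simp] lemma D_single (l : List α) (c : ℤ) : D (Finsupp.single l c) = c • dl l := by
  simp [D]

@[simp] lemma consL_single (x : α) (l : List α) (c : ℤ) :
    consL x (Finsupp.single l c) = Finsupp.single (x :: l) c := by
  simp [consL]

@[simp] lemma dl_nil : dl ([] : List α) = 0 := rfl

lemma dl_cons (x : α) (l : List α) : dl (x :: l) = Finsupp.single l 1 - consL x (dl l) := rfl

lemma D_consL (x : α) (c : List α →₀ ℤ) : D (consL x c) = c - consL x (D c) := by
  induction c using Finsupp.induction_linear with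
  | zero => simp
  | add f g hf hg => simp only [map_add, hf, hg]; abel
  | single a b =>
    rw [consL_single, D_single, D_single, dl_cons, smul_sub, map_smul, Finsupp.smul_single]
    simp

lemma D_dl (l : List α) : D (dl l) = 0 := by
  induction l with
  | nil => simp
  | cons x l ih =>
    rw [dl_cons, map_sub, D_consL, ih]
    simp

lemma D_D (c : List α →₀ ℤ) : D (D c) = 0 := by
  induction c using Finsupp.induction_linear with
  | zero => simp
  | add f g hf hg => simp only [map_add, hf, hg]; simp
  | single a b => rw [D_single, map_smul, D_dl, smul_zero]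

/-- chains supported in a set of lists -/
abbrev Sp (s : Set (List α)) : Submodule ℤ (List α →₀ ℤ) := Finsupp.supported ℤ ℤ s

lemma Sp_induction {s : Set (List α)} {p : (List α →₀ ℤ) → Prop}
    (h0 : p 0) (hadd : ∀ f g, p f → p g → p (f + g)) (hsingle : ∀ l ∈ s, ∀ c, p (Finsupp.single l c))
    {c : List α →₀ ℤ} (hc : c ∈ Sp s) : p c := by
  rw [Finsupp.mem_supported] at hc
  rw [← Finsupp.sum_single c]
  unfold Finsupp.sum
  apply Finset.sum_induction _ _ hadd h0
  intro l hl
  exact hsingle l (hc hl) _

lemma single_mem_Sp {s : Set (List α)} {l : List α} (hl : l ∈ s) (c : ℤ) :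
    Finsupp.single l c ∈ Sp s := Finsupp.single_mem_supported ℤ c hl

lemma consL_mem_Sp {s t : Set (List α)} (x : α) (h : ∀ l ∈ s, x :: l ∈ t) {c : List α →₀ ℤ}
    (hc : c ∈ Sp s) : consL x c ∈ Sp t := by
  refine Sp_induction (p := fun c => consL x c ∈ Sp t) ?_ ?_ ?_ hc
  · simp
  · intro f g hf hg; rw [map_add]; exact add_mem hf hg
  · intro l hl c; rw [consL_single]; exact single_mem_Sp (h l hl) c

/-- the boundary of `l` is supported on the proper sublists of length one less. -/
lemma dl_mem_Sp (l : List α) : dl l ∈ Sp {l' | l'.Sublist l ∧ l'.length + 1 = l.length} := by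
  induction l with
  | nil => simp
  | cons x l ih =>
    rw [dl_cons]
    have h0 : l ∈ {l' | l'.Sublist (x :: l) ∧ l'.length + 1 = (x :: l).length} :=
      ⟨List.sublist_cons_self x l, by simp⟩
    refine sub_mem (single_mem_Sp h0 _) ?_
    refine consL_mem_Sp x ?_ ih
    rintro l' ⟨h1, h2⟩
    exact ⟨h1.cons_cons x, by simp [h2]⟩

end ListChains

/-! ## Subdivision -/

section Subdivision

variable {α Q : Type*} (pr : List α → Q)

/-- The (barycentric) subdivision operator: `sd m` on lists of length `m`. -/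
noncomputable def sd : ℕ → (List α →₀ ℤ) →ₗ[ℤ] (List Q →₀ ℤ)
  | 0 => Finsupp.linearCombination ℤ (fun _ => Finsupp.single [] 1)
  | (m + 1) => Finsupp.linearCombination ℤ (fun l => consL (pr l) (sd m (dl l)))

lemma sd_zero_single (l : List α) (c : ℤ) : sd pr 0 (Finsupp.single l c) = Finsupp.single [] c := by
  simp [sd]

lemma sd_succ_single (m : ℕ) (l : List α) (c : ℤ) :
    sd pr (m + 1) (Finsupp.single l c) = c • consL (pr l) (sd pr m (dl l)) := by
  simp [sd]

lemma dl_length (l : List α) (m : ℕ) (hl : l.length = m + 1) :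
    dl l ∈ Sp {l' : List α | l'.length = m} := by
  refine Finsupp.supported_mono ?_ (dl_mem_Sp l)
  rintro l' ⟨_, h⟩
  simp only [Set.mem_ofPred_eq]
  omega

lemma D_sd (m : ℕ) : ∀ c : List α →₀ ℤ, c ∈ Sp {l : List α | l.length = m + 1} →
    D (sd pr (m + 1) c) = sd pr m (D c) := by
  induction m with
  | zero =>
    intro c hc
    refine Sp_induction (p := fun c => D (sd pr (0 + 1) c) = sd pr 0 (D c)) ?_ ?_ ?_ hc
    · simp
    · intro f g hf hg; simp only [map_add, hf, hg]
    · intro l hl c
      obtain ⟨v, rfl⟩ := List.length_eq_one_iff.1 hl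
      rw [sd_succ_single, dl_cons, dl_nil, map_zero, sub_zero, sd_zero_single, consL_single,
        map_smul, D_single, dl_cons, dl_nil, map_zero, sub_zero, D_single, dl_cons, dl_nil,
        map_zero, sub_zero, map_smul, sd_zero_single]
      simp
  | succ m ih =>
    intro c hc
    refine Sp_induction (p := fun c => D (sd pr (m + 1 + 1) c) = sd pr (m + 1) (D c)) ?_ ?_ ?_ hc
    · simp
    · intro f g hf hg; simp only [map_add, hf, hg]
    · intro l hl c
      rw [sd_succ_single, map_smul, D_consL, ih (dl l) (dl_length l (m + 1) hl), D_dl, map_zero,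
        map_zero, sub_zero, D_single, map_smul]

/-- evaluation of a function on lists, extended linearly. -/
noncomputable def ev {γ : Type*} {A : Type*} [AddCommGroup A] (φ : List γ → A) :
    (List γ →₀ ℤ) →ₗ[ℤ] A := Finsupp.linearCombination ℤ φ

@[simp] lemma ev_single {γ A : Type*} [AddCommGroup A] (φ : List γ → A) (l : List γ) (c : ℤ) :
    ev φ (Finsupp.single l c) = c • φ l := by simp [ev]

lemma ev_consL {γ A : Type*} [AddCommGroup A] (φ : List γ → A) (x : γ) (c : List γ →₀ ℤ) :
    ev φ (consL x c) = ev (fun l => φ (x :: l)) c := by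
  induction c using Finsupp.induction_linear with
  | zero => simp
  | add f g hf hg => simp only [map_add, hf, hg]
  | single a b => simp

lemma ev_eq_zero {γ A : Type*} [AddCommGroup A] {s : Set (List γ)} (φ : List γ → A)
    (h : ∀ l ∈ s, φ l = 0) {c : List γ →₀ ℤ} (hc : c ∈ Sp s) : ev φ c = 0 := by
  refine Sp_induction (p := fun c => ev φ c = 0) ?_ ?_ ?_ hc
  · simp
  · intro f g hf hg; simp only [map_add, hf, hg, add_zero]
  · intro l hl c; simp [h l hl]

end Subdivision

/-! ## Interval partitions -/

section Intervals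

/-- The set partition of `{0,…,n-1}` into the intervals cut out by the positions in `F`. -/
def ivl (n : ℕ) (F : List ℕ) : Setoid (Fin n) where
  r i j := ∀ v ∈ F, (v ≤ i.val ↔ v ≤ j.val)
  iseqv := ⟨fun _ _ _ => Iff.rfl, fun h v hv => (h v hv).symm,
    fun h h' v hv => (h v hv).trans (h' v hv)⟩

lemma ivl_rel {n : ℕ} {F : List ℕ} {i j : Fin n} :
    ivl n F i j ↔ ∀ v ∈ F, (v ≤ i.val ↔ v ≤ j.val) := Iff.rfl

/-- strictly increasing lists of positions strictly between `0` and `n`. -/
def Pos (n : ℕ) (F : List ℕ) : Prop := F.Pairwise (· < ·) ∧ ∀ v ∈ F, 0 < v ∧ v < n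

lemma Pos.sublist {n : ℕ} {F F' : List ℕ} (h : Pos n F) (hs : F'.Sublist F) : Pos n F' :=
  ⟨h.1.sublist hs, fun v hv => h.2 v (hs.subset hv)⟩

lemma ivl_lt {n : ℕ} {F F' : List ℕ} (h : Pos n F) (hs : F'.Sublist F)
    (hl : F'.length < F.length) : ivl n F < ivl n F' := by
  have hle : ivl n F ≤ ivl n F' := by
    intro i j hij v hv
    exact hij v (hs.subset hv)
  refine lt_of_le_of_ne hle ?_
  intro heq
  obtain ⟨v, hv, hv'⟩ : ∃ v ∈ F, v ∉ F' := by
    by_contra hcon
    push Not at hcon
    have hnd : F.Nodup := h.1.imp (fun h => ne_of_lt h)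
    have := (List.subperm_of_subset hnd hcon).length_le
    omega
  obtain ⟨h0, hn⟩ := h.2 v hv
  have h1 : ivl n F' ⟨v - 1, by omega⟩ ⟨v, hn⟩ := by
    intro u hu
    have : u ≠ v := fun h => hv' (h ▸ hu)
    simp only
    omega
  rw [← heq] at h1
  have := h1 v hv
  simp only at this
  omega

lemma ivl_ne_top {n : ℕ} {F : List ℕ} (h : Pos n F) (hF : F ≠ []) : ivl n F ≠ ⊤ := by
  obtain ⟨v, l, rfl⟩ := List.exists_cons_of_ne_nil hF
  obtain ⟨h0, hn⟩ := h.2 v (by simp)
  intro heq
  have h1 : ivl n (v :: l) ⟨0, by omega⟩ ⟨v, hn⟩ := by rw [heq]; trivial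
  have := h1 v (by simp)
  simp only at this
  omega

lemma ivl_ne_bot {n : ℕ} {F : List ℕ} (hF : F.length + 1 < n) : ivl n F ≠ ⊥ := by
  obtain ⟨v, hv, hv'⟩ : ∃ v ∈ List.range' 1 (n - 1), v ∉ F := by
    by_contra hcon
    push Not at hcon
    have := (List.subperm_of_subset List.nodup_range' hcon).length_le
    simp at this
    omega
  rw [List.mem_range'_1] at hv
  intro heq
  have h1 : ivl n F ⟨v - 1, by omega⟩ ⟨v, by omega⟩ := by
    intro u hu
    have : u ≠ v := fun h => hv' (h ▸ hu)
    simp only
    omega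
  rw [heq] at h1
  have h2 : (⟨v - 1, by omega⟩ : Fin n) = ⟨v, by omega⟩ := h1
  rw [Fin.mk.injEq] at h2
  omega

open Classical in
/-- the size of the block containing the first element -/
noncomputable def blk (r : Setoid (Fin 19)) : ℕ := (Finset.univ.filter fun i => r 0 i).card

lemma blk_ivl {v : ℕ} {F : List ℕ} (h : Pos 19 (v :: F)) : blk (ivl 19 (v :: F)) = v := by
  classical
  obtain ⟨h0, hn⟩ := h.2 v (by simp)
  have hset : (Finset.univ.filter fun i : Fin 19 => ivl 19 (v :: F) 0 i) =
      Finset.univ.filter fun i : Fin 19 => i.val < v := by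
    ext i
    simp only [Finset.mem_filter, Finset.mem_univ, true_and]
    constructor
    · intro hi
      have := hi v (by simp)
      simp only [Fin.val_zero] at this
      omega
    · intro hi u hu
      have hu0 := (h.2 u hu).1
      have hvu : v ≤ u := by
        rcases List.mem_cons.1 hu with rfl | hu
        · exact le_rfl
        · exact ((List.pairwise_cons.1 h.1).1 u hu).le
      simp only [Fin.val_zero]
      omega
  have h1 : blk (ivl 19 (v :: F)) =
      (Finset.univ.filter fun i : Fin 19 => ivl 19 (v :: F) 0 i).card := rfl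
  rw [h1, hset, Fin.card_filter_val_lt]
  omega

/-- Evaluating a function (vanishing on lists that are not strictly increasing) of the sizes of the
block containing the first element on a subdivided simplex gives back its value. -/
lemma ev_sd {A : Type*} [AddCommGroup A] (m : ℕ) : ∀ (φ : List ℕ → A),
    (∀ l, ¬ l.Pairwise (· < ·) → φ l = 0) → ∀ l : List ℕ, l.length = m → Pos 19 l →
    ev (fun L : List (Setoid (Fin 19)) => φ (L.map blk))
      (sd (ivl 19) m (Finsupp.single l 1)) = φ l := by
  induction m with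
  | zero =>
    intro φ hφ l hl hP
    rw [List.length_eq_zero_iff] at hl
    subst hl
    rw [sd_zero_single]
    simp
  | succ m ih =>
    intro φ hφ l hl hP
    obtain ⟨v, l', rfl⟩ : ∃ v l', l = v :: l' :=
      List.exists_cons_of_ne_nil (by rintro rfl; simp at hl)
    have hl' : l'.length = m := by simpa using hl
    rw [sd_succ_single, one_smul, ev_consL]
    have hfun : (fun L : List (Setoid (Fin 19)) => φ ((ivl 19 (v :: l') :: L).map blk)) =
        fun L => (fun t => φ (v :: t)) (L.map blk) := by
      funext L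
      rw [List.map_cons, blk_ivl hP]
    rw [hfun, dl_cons, map_sub, map_sub]
    rw [ih (fun t => φ (v :: t)) (fun t ht => hφ _ (fun h => ht (List.pairwise_cons.1 h).2)) l' hl'
      (hP.sublist (List.sublist_cons_self _ _))]
    rw [sub_eq_self]
    refine Sp_induction (s := {l'' : List ℕ | l''.Sublist l' ∧ l''.length + 1 = l'.length})
      (p := fun c => ev (fun L : List (Setoid (Fin 19)) => (fun t => φ (v :: t)) (L.map blk))
        (sd (ivl 19) m (consL v c)) = 0) ?_ ?_ ?_ (dl_mem_Sp l')
    · simp
    · intro f g hf hg; simp only [map_add, hf, hg, add_zero]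
    · rintro l'' ⟨h1, h2⟩ c
      obtain ⟨k, rfl⟩ : ∃ k, m = k + 1 := ⟨l''.length, by omega⟩
      rw [consL_single, sd_succ_single, map_smul, ev_consL]
      have hP' : Pos 19 (v :: l'') := hP.sublist (h1.cons_cons v)
      convert smul_zero c
      refine ev_eq_zero (s := Set.univ) _ ?_ (by simp [Sp])
      intro L _
      simp only
      rw [List.map_cons, blk_ivl hP']
      apply hφ
      intro h
      have := (List.pairwise_cons.1 h).1 v (by simp)
      omega

/-- Lists of set partitions occurring in the subdivision of `l`. -/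
def Flags (m : ℕ) (l : List ℕ) : Set (List (Setoid (Fin 19))) :=
  {L | L.length = m ∧ L.Pairwise (· < ·) ∧
    ∀ x ∈ L, ∃ l' : List ℕ, l' ≠ [] ∧ l'.Sublist l ∧ x = ivl 19 l'}

lemma sd_mem (m : ℕ) : ∀ l : List ℕ, l.length = m → Pos 19 l →
    sd (ivl 19) m (Finsupp.single l 1) ∈ Sp (Flags m l) := by
  induction m with
  | zero =>
    intro l hl hP
    rw [sd_zero_single]
    exact single_mem_Sp (show [] ∈ Flags 0 l from ⟨rfl, List.Pairwise.nil, by simp⟩) _
  | succ m ih =>
    intro l hl hP
    rw [sd_succ_single, one_smul]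
    refine Sp_induction (s := {l' : List ℕ | l'.Sublist l ∧ l'.length + 1 = l.length})
      (p := fun c => consL (ivl 19 l) (sd (ivl 19) m c) ∈ Sp (Flags (m + 1) l))
      ?_ ?_ ?_ (dl_mem_Sp l)
    · simp
    · intro f g hf hg; simp only [map_add]; exact add_mem hf hg
    · rintro l' ⟨h1, h2⟩ c
      have hsm : Finsupp.single l' c = c • Finsupp.single l' (1 : ℤ) := by simp
      rw [hsm, map_smul, map_smul]
      refine Submodule.smul_mem _ _ ?_
      refine consL_mem_Sp _ ?_ (ih l' (by omega) (hP.sublist h1))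
      rintro L ⟨hL1, hL2, hL3⟩
      refine ⟨by simp [hL1], ?_, ?_⟩
      · rw [List.pairwise_cons]
        refine ⟨?_, hL2⟩
        intro x hx
        obtain ⟨l'', hne, hsub, rfl⟩ := hL3 x hx
        exact ivl_lt hP (hsub.trans h1) (by have := hsub.length_le; omega)
      · intro x hx
        rcases List.mem_cons.1 hx with rfl | hx
        · exact ⟨l, by rintro rfl; simp at hl, List.Sublist.refl _, rfl⟩
        · obtain ⟨l'', hne, hsub, rfl⟩ := hL3 x hx
          exact ⟨l'', hne, hsub.trans h1, rfl⟩

end Intervals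

/-! ## Membership in `Π_λ` -/

section Membership

lemma HasShape.comap {n : ℕ} {lam : Multiset ℕ} {s : Setoid (Fin n)} (hs : HasShape lam s)
    (g : Equiv.Perm (Fin n)) : HasShape lam (s.comap g) := by
  obtain ⟨l, f, hf, hr, hc⟩ := hs
  refine ⟨l, f ∘ g, hf.comp g.surjective, ?_, ?_⟩
  · intro i j
    rw [Setoid.comap_rel]
    exact hr _ _
  · rw [← hc]
    refine Multiset.map_congr rfl ?_
    intro k _
    refine Finset.card_bij' (fun i _ => g i) (fun i _ => g.symm i) ?_ ?_ ?_ ?_
    · intro i hi; simpa using hi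
    · intro i hi; simpa using hi
    · intro i _; simp
    · intro i _; simp

lemma mem_orbitLattice_of_le {n : ℕ} {lam : Multiset ℕ} (h1 : lam.count 1 ≤ 1)
    {s r : Setoid (Fin n)} (hs : HasShape lam s) (hsr : s ≤ r) : r ∈ orbitLattice n lam := by
  refine ⟨{t | HasShape lam t ∧ t ≤ r}, fun t ht => ht.1, le_antisymm ?_ (sSup_le fun t ht => ht.2)⟩
  intro i j hij
  rcases eq_or_ne i j with rfl | hne
  · exact Setoid.refl' _ _
  -- find `a ≠ b` in one `s`-block inside the `r`-block of `i`.
  obtain ⟨a, b, hab, hsab, hra⟩ : ∃ a b, a ≠ b ∧ s a b ∧ r i a := by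
    by_contra hcon
    push Not at hcon
    have hi : ∀ b, b ≠ i → ¬ s i b := fun b hb => fun h => hcon i b hb.symm h (Setoid.refl' _ _)
    have hj : ∀ b, b ≠ j → ¬ s j b := fun b hb => fun h => hcon j b hb.symm h hij
    obtain ⟨l, f, hf, hr, hc⟩ := hs
    have hfi : (Finset.univ.filter fun x => f x = f i).card = 1 := by
      rw [Finset.card_eq_one]
      refine ⟨i, ?_⟩
      ext x
      simp only [Finset.mem_filter, Finset.mem_univ, true_and, Finset.mem_singleton]
      constructor
      · intro hx
        by_contra hxi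
        exact hi x hxi ((hr i x).2 hx.symm)
      · rintro rfl; rfl
    have hfj : (Finset.univ.filter fun x => f x = f j).card = 1 := by
      rw [Finset.card_eq_one]
      refine ⟨j, ?_⟩
      ext x
      simp only [Finset.mem_filter, Finset.mem_univ, true_and, Finset.mem_singleton]
      constructor
      · intro hx
        by_contra hxi
        exact hj x hxi ((hr j x).2 hx.symm)
      · rintro rfl; rfl
    have hfne : f i ≠ f j := fun h => hi j hne.symm ((hr i j).2 h)
    rw [← hc, Multiset.count_map] at h1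
    have hsub : ({f i, f j} : Finset (Fin l)) ⊆
        Finset.univ.filter fun k => 1 = (Finset.univ.filter fun x => f x = k).card := by
      intro k hk
      simp only [Finset.mem_insert, Finset.mem_singleton] at hk
      rcases hk with rfl | rfl
      · simp [hfi]
      · simp [hfj]
    have := Finset.card_le_card hsub
    rw [Finset.card_pair hfne] at this
    have h3 : (Finset.univ.filter fun k => 1 = (Finset.univ.filter fun x => f x = k).card).card =
      (Multiset.filter (fun k => 1 = (Finset.univ.filter fun x => f x = k).card)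
        (Finset.univ : Finset (Fin l)).val).card := rfl
    omega
  -- move `a` to `i` and `b` to `j`
  set b' := Equiv.swap a i b with hb'
  have hrb : r i b := Setoid.trans' _ hra (hsr hsab)
  have hb'i : b' ≠ i := by
    intro h
    apply hab
    have : Equiv.swap a i b = Equiv.swap a i a := by rw [← hb', h, Equiv.swap_apply_left]
    exact ((Equiv.swap a i).injective this).symm
  have hrb' : r i b' := by
    rw [hb', Equiv.swap_apply_def]
    split_ifs
    · exact Setoid.refl' _ _
    · exact hra
    · exact hrb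
  set g : Equiv.Perm (Fin n) := (Equiv.swap a i).trans (Equiv.swap b' j) with hg
  have hga : g a = i := by
    rw [hg, Equiv.trans_apply, Equiv.swap_apply_left, Equiv.swap_apply_of_ne_of_ne hb'i.symm hne]
  have hgb : g b = j := by
    rw [hg, Equiv.trans_apply, ← hb', Equiv.swap_apply_left]
  have hr1 : ∀ x, r x (Equiv.swap a i x) := by
    intro x
    rw [Equiv.swap_apply_def]
    split_ifs with h1 h2
    · subst h1; exact Setoid.symm' _ hra
    · subst h2; exact hra
    · exact Setoid.refl' _ _
  have hr2 : ∀ x, r x (Equiv.swap b' j x) := by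
    intro x
    rw [Equiv.swap_apply_def]
    split_ifs with h1 h2
    · rw [h1]; exact Setoid.trans' _ (Setoid.symm' _ hrb') hij
    · rw [h2]; exact Setoid.trans' _ (Setoid.symm' _ hij) hrb'
    · exact Setoid.refl' _ _
  have hrg : ∀ x, r x (g x) := fun x => Setoid.trans' _ (hr1 x) (hr2 _)
  have hrg' : ∀ x, r (g.symm x) x := fun x => by simpa using hrg (g.symm x)
  have ht : s.comap g.symm ∈ {t | HasShape lam t ∧ t ≤ r} := by
    refine ⟨hs.comap g.symm, ?_⟩
    intro x y hxy
    rw [Setoid.comap_rel] at hxy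
    exact Setoid.trans' _ (Setoid.trans' _ (Setoid.symm' _ (hrg' x)) (hsr hxy)) (hrg' y)
  refine (le_sSup ht : s.comap g.symm ≤ _) ?_
  rw [Setoid.comap_rel, ← hga, ← hgb]
  simpa using hsab

end Membership

/-! ## Maximal chains of `Π_λ` and rearrangements of `λ` -/

section Facets

/-- all rearrangements of a list of length `k`. -/
def perms : ℕ → List ℕ → List (List ℕ)
  | 0, _ => [[]]
  | (k + 1), l => l.dedup.flatMap fun a => (perms k (l.erase a)).map (a :: ·)

lemma mem_perms (k : ℕ) : ∀ (l l' : List ℕ), l'.length = k → l'.Perm l → l' ∈ perms k l := by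
  induction k with
  | zero =>
    intro l l' hl' _
    rw [List.length_eq_zero_iff] at hl'
    subst hl'
    simp [perms]
  | succ k ih =>
    intro l l' hl' hp
    obtain ⟨a, t, rfl⟩ : ∃ a t, l' = a :: t :=
      List.exists_cons_of_ne_nil (by rintro rfl; simp at hl')
    have ha : a ∈ l := hp.subset (by simp)
    simp only [perms, List.mem_flatMap, List.mem_dedup, List.mem_map]
    refine ⟨a, ha, t, ih _ _ (by simpa using hl') ?_, rfl⟩
    exact List.cons_perm_iff_perm_erase.1 hp |>.2

/-- partial sums, without the total sum. -/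
def psums : ℕ → List ℕ → List ℕ
  | _, [] => []
  | _, [_] => []
  | s, (x :: y :: t) => (s + x) :: psums (s + x) (y :: t)

/-- parity of the number of facets satisfying `p` (computable form of `ev φ ∘ dl`). -/
def chk : (List ℕ → Bool) → List ℕ → Bool
  | _, [] => false
  | p, (x :: l) => xor (p l) (chk (fun t => p (x :: t)) l)

/-- the `0/1`-valued function to `ZMod 2` associated with a test. -/
def ind (p : List ℕ → Bool) : List ℕ → ZMod 2 := fun l => if p l then 1 else 0

lemma ev_dl_ind (l : List ℕ) : ∀ p : List ℕ → Bool,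
    ev (ind p) (dl l) = if chk p l then (1 : ZMod 2) else 0 := by
  induction l with
  | nil => intro p; simp [chk]
  | cons x l ih =>
    intro p
    rw [dl_cons, map_sub, ev_consL, ev_single, one_smul]
    have : (fun t => ind p (x :: t)) = ind (fun t => p (x :: t)) := rfl
    rw [this, ih]
    simp only [chk, ind]
    have hneg : (-1 : ZMod 2) = 1 := by decide
    rcases Bool.eq_false_or_eq_true (p l) with h | h <;>
      rcases Bool.eq_false_or_eq_true (chk (fun t => p (x :: t)) l) with h' | h' <;>
      simp [h, h', hneg]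

lemma lower_fin6 : ∀ T : Finset (Fin 6), (∀ j ∈ T, ∀ j' ≤ j, j' ∈ T) →
    ∀ j, j ∈ T ↔ j.val < T.card := by decide

lemma chain_perm {lam : Multiset ℕ} (hcard : lam.card = 7) (p : Fin 6 → Setoid (Fin 19))
    (hp : Monotone p) (h0 : p 0 ∈ orbitLattice 19 lam) (h0' : p 0 ≠ ⊥) (h5 : p 5 ≠ ⊤)
    (hb : StrictMono fun j => blk (p j)) :
    ∃ a : Fin 7 → ℕ, Finset.univ.val.map a = lam ∧
      ∀ j : Fin 6, blk (p j) = ∑ c ∈ Finset.univ.filter (fun c : Fin 7 => c.val ≤ j.val), a c := by
  classical
  obtain ⟨S, hS, hS'⟩ := h0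
  obtain ⟨s, hs⟩ : S.Nonempty := by
    rw [Set.nonempty_iff_ne_empty]
    rintro rfl
    rw [sSup_empty] at hS'
    exact h0' hS'
  have hsp : s ≤ p 0 := hS' ▸ le_sSup hs
  obtain ⟨l, f, hf, hr, hc⟩ := hS s hs
  have hl : l = 7 := by
    have := congrArg Multiset.card hc
    simpa [hcard] using this
  subst hl
  have hblk : ∀ j, blk (p j) = (Finset.univ.filter fun x => p j 0 x).card := fun j => rfl
  let T : Fin 19 → Finset (Fin 6) := fun x => Finset.univ.filter fun j => ¬ p j 0 x
  have hT : ∀ x j, j ∈ T x ↔ j.val < (T x).card := by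
    intro x
    refine lower_fin6 (T x) ?_
    intro j hj j' hj'
    simp only [T, Finset.mem_filter, Finset.mem_univ, true_and] at hj ⊢
    exact fun h => hj (hp hj' h)
  have hT' : ∀ x j, p j 0 x ↔ (T x).card ≤ j.val := by
    intro x j
    have := hT x j
    simp only [T, Finset.mem_filter, Finset.mem_univ, true_and] at this
    rw [← not_lt, ← this, not_not]
  have hTcard : ∀ x, (T x).card < 7 := fun x => by
    have := Finset.card_le_univ (T x)
    simp only [Fintype.card_fin] at this
    omega
  let g : Fin 19 → Fin 7 := fun x => ⟨(T x).card, hTcard x⟩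
  have hg : ∀ x j, p j 0 x ↔ (g x).val ≤ j.val := hT'
  have hgs : Function.Surjective g := by
    intro c
    rcases Nat.eq_zero_or_pos c.val with hc0 | hc0
    · refine ⟨0, ?_⟩
      have := (hg 0 0).1 (Setoid.refl' _ _)
      apply Fin.ext
      rw [hc0]
      simpa using this
    · rcases Nat.lt_or_ge c.val 6 with hc6 | hc6
      · have hlt := hb (show (⟨c.val - 1, by omega⟩ : Fin 6) < ⟨c.val, hc6⟩ from
          Fin.mk_lt_mk.2 (by omega))
        simp only [hblk] at hlt
        obtain ⟨x, hx1, hx2⟩ := Finset.exists_mem_notMem_of_card_lt_card hlt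
        simp only [Finset.mem_filter, Finset.mem_univ, true_and] at hx1 hx2
        rw [hg] at hx1 hx2
        refine ⟨x, Fin.ext ?_⟩
        simp only at hx1 hx2
        omega
      · obtain ⟨x, hx⟩ : ∃ x, ¬ p 5 0 x := by
          by_contra hcon
          push Not at hcon
          apply h5
          rw [eq_top_iff]
          intro x y _
          exact Setoid.trans' _ (Setoid.symm' _ (hcon x)) (hcon y)
        rw [hg] at hx
        refine ⟨x, Fin.ext ?_⟩
        have h1 := (g x).2
        have h2 := c.2
        simp only [Fin.isValue, not_le] at hx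
        have h3 : ((5 : Fin 6) : ℕ) = 5 := rfl
        omega
  have hgf : ∀ x y, f x = f y → g x = g y := by
    intro x y hxy
    have hs1 : s x y := (hr x y).2 hxy
    have hpj : ∀ j, p j x y := fun j => hp (Fin.zero_le j) (hsp hs1)
    have hTT : T x = T y := by
      ext j
      simp only [T, Finset.mem_filter, Finset.mem_univ, true_and]
      refine not_congr ⟨fun h => Setoid.trans' _ h (hpj j),
        fun h => Setoid.trans' _ h (Setoid.symm' _ (hpj j))⟩
    apply Fin.ext
    simp only [g, hTT]
  let e : Fin 7 → Fin 7 := fun k => g (Function.surjInv hf k)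
  have he : ∀ x, e (f x) = g x := fun x => hgf _ _ (Function.surjInv_eq hf _)
  have hes : Function.Surjective e := by
    intro c
    obtain ⟨x, rfl⟩ := hgs c
    exact ⟨f x, he x⟩
  have heb : Function.Bijective e := Finite.surjective_iff_bijective.1 hes
  let a : Fin 7 → ℕ := fun c => (Finset.univ.filter fun x => g x = c).card
  refine ⟨a, ?_, ?_⟩
  · have h1 : (Finset.univ.val.map fun k => a (e k)) = lam := by
      rw [← hc]
      refine Multiset.map_congr rfl ?_
      intro k _
      refine congrArg Finset.card ?_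
      ext x
      simp only [Finset.mem_filter, Finset.mem_univ, true_and]
      rw [← he x]
      exact heb.1.eq_iff
    rw [← h1]
    have h2 := Finset.map_univ_equiv (Equiv.ofBijective e heb)
    have h3 : (Finset.univ : Finset (Fin 7)).val = (Finset.univ : Finset (Fin 7)).val.map e := by
      conv_lhs => rw [← h2]
      rfl
    conv_lhs => rw [h3]
    rw [Multiset.map_map]
    rfl
  · intro j
    rw [hblk]
    have h1 : (Finset.univ.filter fun x => p j 0 x) =
        Finset.univ.filter fun x => (g x).val ≤ j.val := by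
      ext x; simp only [Finset.mem_filter, Finset.mem_univ, true_and, hg]
    rw [h1, Finset.card_eq_sum_card_fiberwise (f := g)
      (t := Finset.univ.filter (fun c : Fin 7 => c.val ≤ j.val))]
    · refine Finset.sum_congr rfl ?_
      intro c hc
      simp only [Finset.mem_filter, Finset.mem_univ, true_and] at hc
      refine congrArg Finset.card ?_
      ext x
      simp only [Finset.mem_filter, Finset.mem_univ, true_and]
      constructor
      · rintro ⟨_, h⟩; exact h
      · rintro rfl; exact ⟨hc, rfl⟩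
    · intro x hx
      simpa using hx

lemma chain_psums (p : Fin 6 → Setoid (Fin 19))
    (hp : Monotone p) (h0 : p 0 ∈ orbitLattice 19 lam0) (h0' : p 0 ≠ ⊥) (h5 : p 5 ≠ ⊤)
    (hb : StrictMono fun j => blk (p j)) :
    ∃ l ∈ perms 7 [5, 4, 3, 2, 2, 2, 1],
      [blk (p 0), blk (p 1), blk (p 2), blk (p 3), blk (p 4), blk (p 5)] = psums 0 l := by
  obtain ⟨a, ha, hj⟩ := chain_perm (lam := lam0) rfl p hp h0 h0' h5 hb
  refine ⟨[a 0, a 1, a 2, a 3, a 4, a 5, a 6], mem_perms 7 _ _ rfl ?_, ?_⟩
  · rw [← Multiset.coe_eq_coe]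
    exact ha
  · rw [hj 0, hj 1, hj 2, hj 3, hj 4, hj 5]
    simp only [psums, Finset.sum_filter, Fin.sum_univ_succ]
    simp [Fin.succ]
    refine ⟨?_, ?_, ?_, ?_⟩ <;> ring_nf

end Facets

/-! ## The certificate -/

section Certificate

def W : List (List ℕ × ℤ) := [
  ([2,4,5,7,10,14], -1),
  ([2,4,5,7,10,15], 1),
  ([2,4,5,7,11,14], 1),
  ([2,4,5,7,11,16], -1),
  ([2,4,5,7,12,15], -1),
  ([2,4,5,7,12,16], 1),
  ([2,4,5,9,11,14], -1),
  ([2,4,5,9,11,16], 1),
  ([2,4,5,9,14,16], -1),
  ([2,4,5,10,12,15], 1),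
  ([2,4,5,10,12,16], -1),
  ([2,4,5,10,14,16], 1),
  ([2,4,6,7,10,14], 1),
  ([2,4,6,7,10,15], -1),
  ([2,4,6,7,11,14], -1),
  ([2,4,6,7,11,16], 1),
  ([2,4,6,7,12,15], 1),
  ([2,4,6,7,12,16], -1),
  ([2,4,6,9,10,14], -1),
  ([2,4,6,9,10,15], 1),
  ([2,4,6,9,14,15], -1),
  ([2,4,6,11,12,15], -1),
  ([2,4,6,11,12,16], 1),
  ([2,4,6,11,14,15], 1),
  ([2,4,9,10,12,15], -1),
  ([2,4,9,10,12,16], 1),
  ([2,4,9,10,14,16], -1),
  ([2,4,9,11,12,15], 1),
  ([2,4,9,11,12,16], -1),
  ([2,4,9,11,14,15], -1),
  ([2,5,7,9,10,14], -1),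
  ([2,5,7,9,10,15], 1),
  ([2,5,7,9,14,15], -1),
  ([2,5,7,11,12,14], 1),
  ([2,5,7,11,12,17], -1),
  ([2,5,7,11,16,17], 1),
  ([2,5,7,12,14,15], -1),
  ([2,5,7,12,16,17], -1),
  ([2,5,9,10,12,14], 1),
  ([2,5,9,10,12,17], -1),
  ([2,5,9,10,15,17], 1),
  ([2,5,9,11,12,14], -1),
  ([2,5,9,11,12,17], 1),
  ([2,5,9,11,16,17], -1),
  ([2,5,9,14,15,17], -1),
  ([2,5,9,14,16,17], 1),
  ([2,5,10,12,14,15], 1),
  ([2,5,10,12,16,17], 1),
  ([2,5,10,14,15,17], 1),
  ([2,5,10,14,16,17], -1),
  ([2,6,7,9,11,14], 1),
  ([2,6,7,9,11,16], -1),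
  ([2,6,7,9,14,16], 1),
  ([2,6,7,10,12,14], 1),
  ([2,6,7,10,12,17], -1),
  ([2,6,7,10,15,17], 1),
  ([2,6,7,12,14,16], -1),
  ([2,6,7,12,15,17], -1),
  ([2,6,9,10,12,14], -1),
  ([2,6,9,10,12,17], 1),
  ([2,6,9,10,15,17], -1),
  ([2,6,9,11,12,14], 1),
  ([2,6,9,11,12,17], -1),
  ([2,6,9,11,16,17], 1),
  ([2,6,9,14,15,17], 1),
  ([2,6,9,14,16,17], -1),
  ([2,6,11,12,14,16], 1),
  ([2,6,11,12,15,17], 1),
  ([2,6,11,14,15,17], -1),
  ([2,6,11,14,16,17], 1),
  ([2,7,9,10,12,15], 1),
  ([2,7,9,10,12,16], -1),
  ([2,7,9,10,14,16], 1),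
  ([2,7,9,11,12,15], -1),
  ([2,7,9,11,12,16], 1),
  ([2,7,9,11,14,15], 1),
  ([2,7,10,12,14,15], -1),
  ([2,7,10,12,16,17], -1),
  ([2,7,10,14,15,17], -1),
  ([2,7,10,14,16,17], 1),
  ([2,7,11,12,14,16], -1),
  ([2,7,11,12,15,17], -1),
  ([2,7,11,14,15,17], 1),
  ([2,7,11,14,16,17], -1),
  ([4,5,7,9,11,14], 1),
  ([4,5,7,9,11,16], -1),
  ([4,5,7,9,14,16], 1),
  ([4,5,7,10,12,14], 1),
  ([4,5,7,10,12,17], -1),
  ([4,5,7,10,15,17], 1),
  ([4,5,7,12,14,16], -1),
  ([4,5,7,12,15,17], -1),
  ([4,5,10,12,14,16], 1),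
  ([4,5,10,12,15,17], 1),
  ([4,6,7,9,11,14], -1),
  ([4,6,7,9,11,16], 1),
  ([4,6,7,9,14,16], -1),
  ([4,6,7,10,12,14], -1),
  ([4,6,7,10,12,17], 1),
  ([4,6,7,10,15,17], -1),
  ([4,6,7,12,14,16], 1),
  ([4,6,7,12,15,17], 1),
  ([4,6,9,10,12,14], 1),
  ([4,6,9,10,12,17], -1),
  ([4,6,9,10,15,17], 1),
  ([4,6,9,11,12,14], -1),
  ([4,6,9,11,12,17], 1),
  ([4,6,9,11,16,17], -1),
  ([4,6,9,14,15,17], -1),
  ([4,6,9,14,16,17], 1),
  ([4,6,11,12,14,16], -1),
  ([4,6,11,12,15,17], -1),
  ([4,6,11,14,15,17], 1),
  ([4,6,11,14,16,17], -1),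
  ([4,9,10,12,14,16], -1),
  ([4,9,10,12,15,17], -1),
  ([4,9,11,12,14,16], 1),
  ([4,9,11,12,15,17], 1),
  ([4,9,11,14,15,17], -1),
  ([4,9,11,14,16,17], 1),
  ([5,7,9,10,12,15], -1),
  ([5,7,9,10,12,16], 1),
  ([5,7,9,10,14,16], -1),
  ([5,7,9,11,12,15], 1),
  ([5,7,9,11,12,16], -1),
  ([5,7,9,11,14,15], -1),
  ([5,7,10,12,14,15], 1),
  ([5,7,10,12,16,17], 1),
  ([5,7,10,14,15,17], 1),
  ([5,7,10,14,16,17], -1),
  ([5,7,11,12,14,16], 1),
  ([5,7,11,12,15,17], 1),
  ([5,7,11,14,15,17], -1),
  ([5,7,11,14,16,17], 1),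
  ([5,9,10,12,14,16], 1),
  ([5,9,10,12,15,17], 1),
  ([5,9,11,12,14,16], -1),
  ([5,9,11,12,15,17], -1),
  ([5,9,11,14,15,17], 1),
  ([5,9,11,14,16,17], -1)]

def Z : List (List ℕ × ℤ) := [
  ([2,5,7,10,14], 1),
  ([2,5,7,10,15], -1),
  ([2,5,7,14,15], 1),
  ([2,5,10,14,15], -1),
  ([2,6,9,11,14], 1),
  ([2,6,9,11,16], -1),
  ([2,6,9,14,16], 1),
  ([2,6,11,14,16], -1),
  ([2,7,9,11,14], -1),
  ([2,7,9,11,16], 1),
  ([2,7,9,14,16], -1),
  ([2,7,10,14,15], 1),
  ([2,7,11,14,16], 1),
  ([4,6,9,11,14], -1),
  ([4,6,9,11,16], 1),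
  ([4,6,9,14,16], -1),
  ([4,6,11,14,16], 1),
  ([4,9,11,14,16], -1),
  ([5,7,9,11,14], 1),
  ([5,7,9,11,16], -1),
  ([5,7,9,14,16], 1),
  ([5,7,10,14,15], -1),
  ([5,7,11,14,16], -1),
  ([5,9,11,14,16], 1)]

def phiTable : List (List ℕ) := [
  [1,5,10,12,14],
  [4,5,10,12,14],
  [5,6,12,14,16],
  [5,6,12,14,17],
  [5,7,8,14,16],
  [5,7,8,14,17],
  [5,7,10,12,14],
  [5,7,10,14,15],
  [5,7,10,14,16],
  [5,7,10,14,17],
  [5,7,10,14,18],
  [5,8,10,12,14],
  [5,8,12,14,15],
  [5,8,12,14,16],
  [5,8,12,14,17],
  [5,8,12,14,18],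
  [5,9,10,14,16],
  [5,9,10,14,17],
  [5,10,12,14,16],
  [5,10,12,14,17]]

/-- the mod 2 cocycle -/
def phiB : List ℕ → Bool := fun l => phiTable.contains l

lemma phiB_strict : ∀ l, ¬ l.Pairwise (· < ·) → ind phiB l = 0 := by
  intro l hl
  have h : ∀ l ∈ phiTable, l.Pairwise (· < ·) := by decide
  have : phiB l = false := by
    by_contra hcon
    simp only [phiB, Bool.not_eq_false, List.contains_iff_mem] at hcon
    exact hl (h l hcon)
  simp [ind, this]

lemma check_cocycle : ((perms 7 [5, 4, 3, 2, 2, 2, 1]).all fun l => !chk phiB (psums 0 l)) = true := by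
  decide +kernel

/-- list of terms to chain -/
noncomputable def toF (T : List (List ℕ × ℤ)) : List ℕ →₀ ℤ :=
  (T.map fun q => Finsupp.single q.1 q.2).sum

@[simp] lemma toF_nil : toF [] = 0 := rfl
@[simp] lemma toF_cons (q : List ℕ × ℤ) (T) : toF (q :: T) = Finsupp.single q.1 q.2 + toF T := by
  simp [toF]
@[simp] lemma toF_append (T T' : List (List ℕ × ℤ)) : toF (T ++ T') = toF T + toF T' := by
  simp [toF]

/-- the terms of `c • ∂σ` -/
def facesL : List ℕ → ℤ → List (List ℕ × ℤ)
  | [], _ => []
  | (x :: l), c => (l, c) :: (facesL l (-c)).map fun q => (x :: q.1, q.2)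

lemma toF_map_cons (x : ℕ) (T : List (List ℕ × ℤ)) :
    toF (T.map fun q => (x :: q.1, q.2)) = consL x (toF T) := by
  induction T with
  | nil => simp
  | cons q T ih => simp [ih]

lemma toF_facesL (l : List ℕ) : ∀ c, toF (facesL l c) = c • dl l := by
  induction l with
  | nil => intro c; simp [facesL]
  | cons x l ih =>
    intro c
    rw [facesL, toF_cons, toF_map_cons, ih, dl_cons, map_smul, smul_sub, Finsupp.smul_single,
      neg_smul]
    simp [sub_eq_add_neg]

/-- the terms of `∂` of a chain -/
def bdL (T : List (List ℕ × ℤ)) : List (List ℕ × ℤ) := T.flatMap fun q => facesL q.1 q.2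

lemma toF_bdL (T : List (List ℕ × ℤ)) : toF (bdL T) = D (toF T) := by
  induction T with
  | nil => simp [bdL]
  | cons q T ih =>
    have : bdL (q :: T) = facesL q.1 q.2 ++ bdL T := by simp [bdL]
    rw [this, toF_append, ih, toF_facesL, toF_cons, map_add, D_single]

/-- collect terms -/
def addTerm (k : List ℕ) (c : ℤ) : List (List ℕ × ℤ) → List (List ℕ × ℤ)
  | [] => [(k, c)]
  | (q :: T) => if k = q.1 then (q.1, c + q.2) :: T else q :: addTerm k c T

lemma toF_addTerm (k : List ℕ) (c : ℤ) (T : List (List ℕ × ℤ)) :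
    toF (addTerm k c T) = Finsupp.single k c + toF T := by
  induction T with
  | nil => simp [addTerm]
  | cons q T ih =>
    rw [addTerm]
    split_ifs with h
    · rw [toF_cons, toF_cons, h, Finsupp.single_add]; abel
    · rw [toF_cons, toF_cons, ih]; abel

/-- collect all terms -/
def collect (T : List (List ℕ × ℤ)) : List (List ℕ × ℤ) := T.foldr (fun q T => addTerm q.1 q.2 T) []

lemma toF_collect (T : List (List ℕ × ℤ)) : toF (collect T) = toF T := by
  induction T with
  | nil => rfl
  | cons q T ih =>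
    have : collect (q :: T) = addTerm q.1 q.2 (collect T) := rfl
    rw [this, toF_addTerm, ih, toF_cons]

lemma toF_eq_zero (T : List (List ℕ × ℤ)) (h : T.all (fun q => q.2 == 0) = true) : toF T = 0 := by
  induction T with
  | nil => rfl
  | cons q T ih =>
    rw [List.all_cons, Bool.and_eq_true] at h
    rw [toF_cons, ih h.2, beq_iff_eq.1 h.1]
    simp

lemma check_boundary :
    ((collect (bdL W ++ Z.map fun q => (q.1, -2 * q.2))).all fun q => q.2 == 0) = true := by
  decide +kernel

lemma D_W : D (toF W) = (2 : ℤ) • toF Z := by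
  have h := toF_eq_zero _ check_boundary
  rw [toF_collect, toF_append, toF_bdL] at h
  have h2 : toF (Z.map fun q => (q.1, -2 * q.2)) = -((2 : ℤ) • toF Z) := by
    generalize Z = T
    induction T with
    | nil => simp
    | cons q T ih =>
      rw [List.map_cons, toF_cons, toF_cons, ih, smul_add, neg_add, Finsupp.smul_single]
      congr 1
      rw [← Finsupp.single_neg]
      congr 1
      simp
  rw [h2] at h
  exact add_neg_eq_zero.1 h

/-- label of the block of `i` in the interval partition given by `F` -/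
def cnt (F : List ℕ) (i : Fin 19) : Fin 7 := Fin.ofNat 7 (F.countP fun v => decide (v ≤ i.val))

lemma countP_imp {p q : ℕ → Bool} (hpq : ∀ v, p v = true → q v = true) (F : List ℕ)
    (h : F.countP p = F.countP q) : ∀ v ∈ F, q v = true → p v = true := by
  induction F with
  | nil => simp
  | cons x F ih =>
    have hle : F.countP p ≤ F.countP q := List.countP_mono_left fun v _ => hpq v
    rw [List.countP_cons, List.countP_cons] at h
    intro v hv hqv
    by_cases hpx : p x = true
    · rw [if_pos hpx, if_pos (hpq x hpx)] at h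
      rcases List.mem_cons.1 hv with rfl | hv
      · exact hpx
      · exact ih (by omega) v hv hqv
    · rw [if_neg hpx] at h
      by_cases hqx : q x = true
      · rw [if_pos hqx] at h
        omega
      · rw [if_neg hqx] at h
        rcases List.mem_cons.1 hv with rfl | hv
        · exact absurd hqv hqx
        · exact ih (by omega) v hv hqv

lemma ivl_iff_cnt {F : List ℕ} (hF : F.length = 6) (i j : Fin 19) :
    ivl 19 F i j ↔ cnt F i = cnt F j := by
  have hle : ∀ i : Fin 19, F.countP (fun v => decide (v ≤ i.val)) < 7 := fun i => by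
    have := List.countP_le_length (p := fun v => decide (v ≤ i.val)) (l := F)
    omega
  have hcnt : ∀ i, (cnt F i).val = F.countP (fun v => decide (v ≤ i.val)) := fun i =>
    Nat.mod_eq_of_lt (hle i)
  rw [Fin.ext_iff, hcnt, hcnt]
  constructor
  · intro h
    refine List.countP_congr ?_
    intro v hv
    simpa using h v hv
  · intro h v hv
    rcases le_total i j with hij | hij
    · have hij' : i.val ≤ j.val := hij
      refine ⟨fun h' => h'.trans hij', fun h' => ?_⟩
      have := countP_imp (p := fun v => decide (v ≤ i.val)) (q := fun v => decide (v ≤ j.val))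
        (fun v hv => by simp only [decide_eq_true_eq] at hv ⊢; omega) F h v hv (by simpa using h')
      simpa using this
    · have hij' : j.val ≤ i.val := hij
      refine ⟨fun h' => ?_, fun h' => h'.trans hij'⟩
      have := countP_imp (p := fun v => decide (v ≤ j.val)) (q := fun v => decide (v ≤ i.val))
        (fun v hv => by simp only [decide_eq_true_eq] at hv ⊢; omega) F h.symm v hv
        (by simpa using h')
      simpa using this

lemma check_shape : ∀ q ∈ W, q.1.length = 6 ∧ (q.1.Pairwise (· < ·)) ∧ (∀ v ∈ q.1, 0 < v ∧ v < 19) ∧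
    (Finset.univ.val.map fun k : Fin 7 => (Finset.univ.filter fun i => cnt q.1 i = k).card) =
      lam0 := by
  decide +kernel

lemma W_shape {F : List ℕ} {c : ℤ} (h : (F, c) ∈ W) :
    F.length = 6 ∧ Pos 19 F ∧ HasShape lam0 (ivl 19 F) := by
  obtain ⟨h1, h2, h3, h4⟩ := check_shape _ h
  simp only at h1 h2 h3 h4
  refine ⟨h1, ⟨h2, h3⟩, 7, cnt F, ?_, ivl_iff_cnt h1, h4⟩
  intro k
  have hk : (Finset.univ.filter fun i => cnt F i = k).card ∈
      (Finset.univ.val.map fun k : Fin 7 => (Finset.univ.filter fun i => cnt F i = k).card) :=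
    Multiset.mem_map_of_mem _ (Finset.mem_univ k)
  rw [h4] at hk
  have hpos : 0 < (Finset.univ.filter fun i => cnt F i = k).card := by
    rcases Nat.eq_zero_or_pos (Finset.univ.filter fun i => cnt F i = k).card with h0 | h0
    · rw [h0] at hk
      exact absurd hk (by decide)
    · exact h0
  obtain ⟨x, hx⟩ := Finset.card_pos.1 hpos
  exact ⟨x, by simpa using hx⟩

/-- pairing of the mod 2 cocycle with `Z` -/
lemma ev_toF_Z : ev (ind phiB) (toF Z) = 1 := by
  have h : ∀ T : List (List ℕ × ℤ), ev (ind phiB) (toF T) =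
      ((T.map fun q => if phiB q.1 then q.2 else 0).sum : ℤ) := by
    intro T
    induction T with
    | nil => simp
    | cons q T ih =>
      rw [toF_cons, map_add, ih, ev_single, List.map_cons, List.sum_cons, Int.cast_add]
      congr 1
      rcases Bool.eq_false_or_eq_true (phiB q.1) with h | h <;> simp [ind, h]
  rw [h]
  have h2 : (Z.map fun q => if phiB q.1 then q.2 else 0).sum = -1 := by decide +kernel
  rw [h2]
  decide

end Certificate

/-! ## Assembly -/

section Assembly

lemma ev_map {A γ δ : Type*} [AddCommGroup A] (b : γ → δ) (L : List γ) : ∀ φ : List δ → A,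
    ev (fun L : List γ => φ (L.map b)) (dl L) = ev φ (dl (L.map b)) := by
  induction L with
  | nil => intro φ; simp
  | cons x L ih =>
    intro φ
    rw [dl_cons, List.map_cons, dl_cons, map_sub, map_sub, ev_consL, ev_consL, ev_single, ev_single]
    congr 1
    exact ih fun l => φ (b x :: l)

/-- degenerate (weakly but not strictly increasing) lists contribute zero. -/
lemma ev_degenerate {A : Type*} [AddCommGroup A] (M : List ℕ) : M.Pairwise (· ≤ ·) →
    ¬ M.Pairwise (· < ·) → ∀ φ : List ℕ → A, (∀ l, ¬ l.Pairwise (· < ·) → φ l = 0) →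
    ev φ (dl M) = 0 := by
  induction M with
  | nil => intro _ h; exact absurd List.Pairwise.nil h
  | cons x M ih =>
    intro h1 h2 φ hφ
    cases M with
    | nil => exact absurd (List.pairwise_singleton _ _) h2
    | cons y l =>
      rw [List.pairwise_cons] at h1
      rcases (h1.1 y (by simp)).eq_or_lt with hxy | hxy
      · subst hxy
        rw [dl_cons, map_sub, ev_consL, dl_cons, map_sub, ev_single, ev_single, ev_consL]
        have h0 : ev (fun l => φ (x :: x :: l)) (dl l) = 0 := by
          refine ev_eq_zero (s := Set.univ) _ ?_ (by simp [Sp])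
          intro l' _
          apply hφ
          intro h
          have := (List.pairwise_cons.1 h).1 x (by simp)
          omega
        rw [h0]
        simp
      · have hns : ¬ (y :: l).Pairwise (· < ·) := by
          intro hs
          apply h2
          rw [List.pairwise_cons]
          refine ⟨?_, hs⟩
          intro z hz
          rcases List.mem_cons.1 hz with rfl | hz'
          · exact hxy
          · exact hxy.trans ((List.pairwise_cons.1 hs).1 z hz')
        rw [dl_cons, map_sub, ev_consL, ev_single, hφ _ hns, smul_zero, zero_sub, neg_eq_zero]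
        exact ih h1.2 hns _ fun t ht => hφ _ fun h => ht (List.pairwise_cons.1 h).2

/-- The proper part of `Π_λ` as a set. -/
abbrev A0 : Set (Setoid (Fin 19)) := ProperPart 19 lam0

/-- lists that are simplices of the order complex -/
abbrev Good (m : ℕ) : Set (List (Setoid (Fin 19))) :=
  {L | L.length = m ∧ L.Pairwise (· < ·) ∧ ∀ x ∈ L, x ∈ A0}

lemma blk_mono {r s : Setoid (Fin 19)} (h : r ≤ s) : blk r ≤ blk s := by
  classical
  refine Finset.card_le_card ?_
  intro x hx
  simp only [Finset.mem_filter, Finset.mem_univ, true_and] at hx ⊢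
  exact h hx

/-- The cocycle condition: the pulled-back function vanishes on boundaries of 5-simplices. -/
lemma cocycle {L : List (Setoid (Fin 19))} (hL : L ∈ Good 6) :
    ev (fun L : List (Setoid (Fin 19)) => ind phiB (L.map blk)) (dl L) = 0 := by
  obtain ⟨h1, h2, h3⟩ := hL
  rw [ev_map]
  by_cases hs : (L.map blk).Pairwise (· < ·)
  · let p : Fin 6 → Setoid (Fin 19) := fun j => L.get (j.cast h1.symm)
    have hp : Monotone p := by
      intro i j hij
      rcases hij.eq_or_lt with rfl | hlt
      · exact le_rfl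
      · exact (List.pairwise_iff_get.1 h2 (i.cast h1.symm) (j.cast h1.symm) hlt).le
    have hmem : ∀ j, p j ∈ A0 := fun j => h3 _ (List.get_mem _ _)
    have hb : StrictMono fun j => blk (p j) := by
      intro i j hij
      have hs' := List.pairwise_map.1 hs
      exact List.pairwise_iff_get.1 hs' (i.cast h1.symm) (j.cast h1.symm) hij
    obtain ⟨l, hl, hl'⟩ := chain_psums p hp (hmem 0).1 (hmem 0).2.1 (hmem 5).2.2 hb
    have hLM : L.map blk = [blk (p 0), blk (p 1), blk (p 2), blk (p 3), blk (p 4), blk (p 5)] := by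
      apply List.ext_getElem
      · simp [h1]
      · intro i hi hi'
        simp only [List.length_cons, List.length_nil] at hi'
        interval_cases i <;> simp [p]
    rw [hLM, hl', ev_dl_ind]
    have := List.all_eq_true.1 check_cocycle l hl
    simp only [Bool.not_eq_true'] at this
    rw [this]
    simp
  · refine ev_degenerate _ ?_ hs _ phiB_strict
    exact List.pairwise_map.2 (h2.imp fun h => blk_mono h.le)

/-- forget the proofs: chains of simplices to chains of lists -/
noncomputable def io (m : ℕ) : Chains A0 m →ₗ[ℤ] (List (Setoid (Fin 19)) →₀ ℤ) :=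
  Finsupp.lmapDomain ℤ ℤ (fun s : Simplex A0 m => s.1.map Subtype.val)

lemma io_single (m : ℕ) (s : Simplex A0 m) (c : ℤ) :
    io m (Finsupp.single s c) = Finsupp.single (s.1.map Subtype.val) c := by
  simp [io]

lemma io_injective (m : ℕ) : Function.Injective (io m) := by
  refine Finsupp.mapDomain_injective ?_
  intro s t hst
  apply Subtype.ext
  exact List.map_injective_iff.2 Subtype.val_injective hst

lemma dl_eq_sum {α : Type*} (L : List α) :
    dl L = ∑ i ∈ Finset.range L.length, Finsupp.single (L.eraseIdx i) ((-1 : ℤ) ^ i) := by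
  induction L with
  | nil => simp
  | cons x L ih =>
    rw [List.length_cons, Finset.sum_range_succ', dl_cons, ih, map_sum]
    simp only [consL_single, List.eraseIdx_cons_zero, pow_zero, List.eraseIdx_cons_succ]
    rw [sub_eq_add_neg, add_comm, ← Finset.sum_neg_distrib]
    congr 1
    refine Finset.sum_congr rfl ?_
    intro i _
    rw [← Finsupp.single_neg, pow_succ]
    simp

lemma D_io (m : ℕ) (c : Chains A0 (m + 1)) : D (io (m + 1) c) = io m (boundary A0 m c) := by
  induction c using Finsupp.induction_linear with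
  | zero => simp
  | add f g hf hg => simp only [map_add, hf, hg]
  | single s c =>
    rw [io_single, D_single, dl_eq_sum, boundary, Finsupp.linearCombination_single, map_smul]
    congr 1
    rw [faceSum, map_sum, List.length_map, s.2.1, ← Fin.sum_univ_eq_sum_range
      (fun i => Finsupp.single ((s.1.map Subtype.val).eraseIdx i) ((-1 : ℤ) ^ i))]
    refine Finset.sum_congr rfl ?_
    intro i _
    rw [io_single]
    congr 1
    simp only [Simplex.face]
    rw [List.eraseIdx_map]

lemma io_mem (m : ℕ) (c : Chains A0 m) : io m c ∈ Sp (Good m) := by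
  induction c using Finsupp.induction_linear with
  | zero => simp
  | add f g hf hg => rw [map_add]; exact add_mem hf hg
  | single s c =>
    rw [io_single]
    refine single_mem_Sp (show _ ∈ Good m from ⟨by rw [List.length_map]; exact s.2.1, ?_, ?_⟩) c
    · exact List.pairwise_map.2 s.2.2
    · intro x hx
      obtain ⟨y, _, rfl⟩ := List.mem_map.1 hx
      exact y.2

lemma exists_io (m : ℕ) {c : List (Setoid (Fin 19)) →₀ ℤ} (hc : c ∈ Sp (Good m)) :
    ∃ c', io m c' = c := by
  refine Sp_induction (p := fun c => ∃ c', io m c' = c) ⟨0, map_zero _⟩ ?_ ?_ hc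
  · rintro f g ⟨f', rfl⟩ ⟨g', rfl⟩
    exact ⟨f' + g', map_add _ _ _⟩
  · rintro L ⟨h1, h2, h3⟩ c
    lift L to List A0 using h3
    have h2' : L.Pairwise (· < ·) := (List.pairwise_map (f := Subtype.val)).1 h2
    refine ⟨Finsupp.single ⟨L, by simpa using h1, h2'⟩ c, io_single _ _ _⟩

lemma toF_W_mem : toF W ∈ Sp {l : List ℕ | l.length = 5 + 1} := by
  have h : ∀ T : List (List ℕ × ℤ), (∀ q ∈ T, q ∈ W) → toF T ∈ Sp {l : List ℕ | l.length = 5 + 1} := by
    intro T
    induction T with
    | nil => intro _; simp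
    | cons q T ih =>
      intro hT
      rw [toF_cons]
      refine add_mem (single_mem_Sp (show q.1 ∈ {l : List ℕ | l.length = 5 + 1} from ?_) _)
        (ih fun q hq => hT q (List.mem_cons_of_mem _ hq))
      exact (W_shape (F := q.1) (c := q.2) (hT q (by simp))).1
  exact h W fun q hq => hq

lemma sd_W_mem : sd (ivl 19) 6 (toF W) ∈ Sp (Good 6) := by
  have h : ∀ T : List (List ℕ × ℤ), (∀ q ∈ T, q ∈ W) → sd (ivl 19) 6 (toF T) ∈ Sp (Good 6) := by
    intro T
    induction T with
    | nil => intro _; simp
    | cons q T ih =>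
      intro hT
      rw [toF_cons, map_add]
      refine add_mem ?_ (ih fun q hq => hT q (List.mem_cons_of_mem _ hq))
      obtain ⟨h1, h2, h3⟩ := W_shape (F := q.1) (c := q.2) (hT q (by simp))
      have hsm : Finsupp.single q.1 q.2 = q.2 • Finsupp.single q.1 (1 : ℤ) := by simp
      rw [hsm, map_smul]
      refine Submodule.smul_mem _ _ (Finsupp.supported_mono ?_ (sd_mem 6 q.1 h1 h2))
      rintro L ⟨hL1, hL2, hL3⟩
      refine ⟨hL1, hL2, ?_⟩
      intro x hx
      obtain ⟨l', hne, hsub, rfl⟩ := hL3 x hx
      have hP := h2.sublist hsub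
      refine ⟨?_, ivl_ne_bot ?_, ivl_ne_top hP hne⟩
      · refine mem_orbitLattice_of_le (by decide) h3 ?_
        intro i j hij v hv
        exact hij v (hsub.subset hv)
      · have := hsub.length_le
        omega
  exact h W fun q hq => hq

lemma toF_Z_ev : ev (fun L : List (Setoid (Fin 19)) => ind phiB (L.map blk))
    (sd (ivl 19) 5 (toF Z)) = 1 := by
  have hZ : ∀ q ∈ Z, q.1.length = 5 ∧ q.1.Pairwise (· < ·) ∧ ∀ v ∈ q.1, 0 < v ∧ v < 19 := by
    decide
  have h : ∀ T : List (List ℕ × ℤ), (∀ q ∈ T, q ∈ Z) →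
      ev (fun L : List (Setoid (Fin 19)) => ind phiB (L.map blk)) (sd (ivl 19) 5 (toF T)) =
        ev (ind phiB) (toF T) := by
    intro T
    induction T with
    | nil => intro _; simp
    | cons q T ih =>
      intro hT
      rw [toF_cons, map_add, map_add, map_add, ih fun q hq => hT q (List.mem_cons_of_mem _ hq)]
      congr 1
      obtain ⟨h1, h2, h3⟩ := hZ q (hT q (by simp))
      have hsm : Finsupp.single q.1 q.2 = q.2 • Finsupp.single q.1 (1 : ℤ) := by simp
      rw [hsm, map_smul, map_smul, map_smul, ev_sd 5 (ind phiB) phiB_strict q.1 h1 ⟨h2, h3⟩]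
      simp
  rw [h Z fun q hq => hq, ev_toF_Z]

end Assembly

/-- **Main theorem.** For `λ = (5,4,3,2,2,2,1)`, a partition of `19`, the group `H̃_4(Π_λ; ℤ)` has
an element of order two. -/
theorem result :
    ∃ x : ReducedHomology (ProperPart 19 lam0) 4, addOrderOf x = 2 := by
  obtain ⟨w, hw⟩ := exists_io 6 sd_W_mem
  have hD : D (io 6 w) = (2 : ℤ) • sd (ivl 19) 5 (toF Z) := by
    rw [hw, D_sd (ivl 19) 5 _ toF_W_mem, D_W, map_smul]
  have hZmem : sd (ivl 19) 5 (toF Z) ∈ Sp (Good 5) := by
    have h2 : (2 : ℤ) • sd (ivl 19) 5 (toF Z) ∈ Sp (Good 5) := by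
      rw [← hD, D_io]
      exact io_mem _ _
    rw [Finsupp.mem_supported] at h2 ⊢
    refine subset_trans ?_ h2
    intro L hL
    simp only [Finset.mem_coe, Finsupp.mem_support_iff, Finsupp.smul_apply, smul_eq_mul] at hL ⊢
    exact mul_ne_zero two_ne_zero hL
  obtain ⟨z, hz⟩ := exists_io 5 hZmem
  have hzw : boundary A0 5 w = (2 : ℤ) • z := by
    apply io_injective
    rw [← D_io, hD, map_smul, hz]
  have hz0 : boundary A0 4 z = 0 := by
    apply io_injective
    rw [← D_io, hz, map_zero]
    have h2 : (2 : ℤ) • D (sd (ivl 19) 5 (toF Z)) = 0 := by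
      rw [← map_smul, ← hD, D_D]
    exact (smul_eq_zero.1 h2).resolve_left two_ne_zero
  have hnb : ¬ ∃ u, boundary A0 5 u = z := by
    rintro ⟨u, hu⟩
    have h1 : ev (fun L : List (Setoid (Fin 19)) => ind phiB (L.map blk)) (io 5 z) = 1 := by
      rw [hz]; exact toF_Z_ev
    rw [← hu, ← D_io] at h1
    have h0 : ∀ u : Chains A0 6,
        ev (fun L : List (Setoid (Fin 19)) => ind phiB (L.map blk)) (D (io 6 u)) = 0 := by
      intro u
      induction u using Finsupp.induction_linear with
      | zero => simp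
      | add f g hf hg => simp only [map_add, hf, hg, add_zero]
      | single s c =>
        rw [io_single, D_single, map_smul, cocycle, smul_zero]
        refine ⟨by rw [List.length_map]; exact s.2.1, List.pairwise_map.2 s.2.2, ?_⟩
        intro x hx
        obtain ⟨y, _, rfl⟩ := List.mem_map.1 hx
        exact y.2
    rw [h0 u] at h1
    exact absurd h1 (by decide)
  refine ⟨(Submodule.Quotient.mk (⟨z, hz0⟩ : Cycles A0 4) : Cycles A0 4 ⧸ Boundaries A0 4), ?_⟩
  refine addOrderOf_eq_prime ?_ ?_
  · have h2 : (Submodule.Quotient.mk ((2 : ℕ) • (⟨z, hz0⟩ : Cycles A0 4)) :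
        Cycles A0 4 ⧸ Boundaries A0 4) = 0 := by
      rw [Submodule.Quotient.mk_eq_zero]
      refine ⟨w, ?_⟩
      rw [hzw]
      exact natCast_zsmul z 2
    exact h2
  · have h2 : (Submodule.Quotient.mk (⟨z, hz0⟩ : Cycles A0 4) :
        Cycles A0 4 ⧸ Boundaries A0 4) ≠ 0 := by
      rw [Ne, Submodule.Quotient.mk_eq_zero]
      rintro ⟨u, hu⟩
      exact hnb ⟨u, hu⟩
    exact h2

end Pool.Agent.Results.MP_5a3b5e_co.TorsionCounterexample
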